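import Mathlib

namespace Pool.Agent.Results.MP_06621a_co.Full

open Finset

/-- the distinct non-empty palindromes that are scattered subwords of `w` -/
def pals {α : Type} [DecidableEq α] (w : List α) : Finset (List α) :=
  w.sublists.toFinset.filter fun u => u ≠ [] ∧ u.reverse = u

/-- the number `M(n)` -/
def M (n : ℕ) : ℕ := if n % 2 = 1 then 3 * 2 ^ ((n + 1) / 2 - 1) - 2 else 2 ^ (n / 2 + 1) - 2

def g : ℕ → ℕ
  | 0 => 2
  | 1 => 3
  | n + 2 => 2 * g n

lemma g_eq (n : ℕ) : g n = if n % 2 = 1 then 3 * 2 ^ (n / 2) else 2 ^ (n / 2 + 1) := by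
  induction n using Nat.twoStepInduction with
  | zero => rfl
  | one => rfl
  | more n h _ =>
    rw [g, h, Nat.add_mod_right, Nat.add_div_right _ two_pos]
    split_ifs <;> ring

lemma g_ge (n : ℕ) : n + 2 ≤ g n := by
  induction n using Nat.twoStepInduction with
  | zero => simp [g]
  | one => simp [g]
  | more n h _ => rw [g]; omega

lemma M_eq (n : ℕ) : M n + 2 = g n := by
  have h := g_ge n
  rw [g_eq] at h ⊢
  unfold M
  split_ifs at h ⊢ with h1
  · rw [show (n + 1) / 2 - 1 = n / 2 by omega]; omega
  · omega

lemma g_add (n t : ℕ) : g (n + 2 * t) = 2 ^ t * g n := by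
  induction t with
  | zero => simp
  | succ t ih => rw [show n + 2 * (t + 1) = n + 2 * t + 2 by ring, g, ih]; ring

lemma g_conv (l d : ℕ) : 2 ^ (d + 1) * g l ≤ g (l + d) * (1 + 2 ^ d) := by
  induction d using Nat.twoStepInduction with
  | zero => simp; omega
  | one =>
    have : 4 * g l ≤ 3 * g (l + 1) := by
      induction l using Nat.twoStepInduction with
      | zero => simp [g]
      | one => simp [g]
      | more l h _ => rw [show l + 2 + 1 = l + 1 + 2 by ring, g, g]; omega
    norm_num; omega
  | more d h _ =>
    rw [← add_assoc, g, pow_add, pow_add] at *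
    have : 1 ≤ 2 ^ d := Nat.one_le_two_pow
    nlinarith [Nat.zero_le (g (l + d))]

lemma g_mid (l a b : ℕ) :
    (g l : ℝ) ≤ g (l + a + b + 2) / 4 * ((1 / 2) ^ a + (1 / 2) ^ b) := by
  wlog h : a ≤ b generalizing a b
  · have := this b a (by omega)
    rwa [show l + b + a = l + a + b by ring, add_comm ((1 / 2 : ℝ) ^ b)] at this
  obtain ⟨d, rfl⟩ := Nat.exists_eq_add_of_le h
  rw [show l + a + (a + d) + 2 = l + d + 2 * (a + 1) by ring, g_add]
  have h1 : ((2 ^ (d + 1) * g l : ℕ) : ℝ) ≤ (g (l + d) * (1 + 2 ^ d) : ℕ) := by
    exact_mod_cast g_conv l d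
  push_cast at h1 ⊢
  have e : (2 : ℝ) ^ (a + 1) * g (l + d) / 4 * ((1 / 2) ^ a + (1 / 2) ^ (a + d))
      = g (l + d) * (1 + 2 ^ d) / 2 ^ (d + 1) := by
    simp only [one_div, inv_pow, pow_add]; field_simp; ring
  rw [e, le_div_iff₀ (by positivity)]
  linarith

lemma geo (S : Finset ℕ) : ∑ i ∈ S, (1 / 2 : ℝ) ^ i ≤ 2 - 2 * (1 / 2) ^ S.card := by
  induction S using Finset.induction_on_max with
  | empty => simp
  | insert m S hm ih =>
    have hn : m ∉ S := fun h => lt_irrefl _ (hm m h)
    have hc : S.card ≤ m := by
      simpa using card_le_card (show S ⊆ range m from fun x hx => mem_range.2 (hm x hx))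
    rw [sum_insert hn, card_insert_of_notMem hn, pow_succ]
    have : (1 / 2 : ℝ) ^ m ≤ (1 / 2) ^ S.card := pow_le_pow_of_le_one (by norm_num) (by norm_num) hc
    linarith

variable {α : Type} [DecidableEq α]

omit [DecidableEq α] in
lemma L1 {c : α} {A x y : List α} (hA : c ∉ A) (h : (c :: x).Sublist (A ++ c :: y)) : x.Sublist y := by
  induction A with
  | nil => exact List.cons_sublist_cons.1 h
  | cons a A ih =>
    rw [List.mem_cons, not_or] at hA
    rcases List.sublist_cons_iff.1 h with h | ⟨r, hr, -⟩
    · exact ih hA.2 h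
    · exact absurd (List.cons.inj hr).1 hA.1

lemma shape {w u : List α} {c : α} (hu : u ∈ (pals w).filter fun u => u.head? = some c) :
    u = [c] ∨ ∃ v, v.reverse = v ∧ u = c :: (v ++ [c]) ∧ u.Sublist w := by
  simp only [pals, mem_filter, List.mem_toFinset, List.mem_sublists] at hu
  obtain ⟨⟨h1, -, h2⟩, h3⟩ := hu
  cases u with
  | nil => simp at h3
  | cons d r =>
    obtain rfl : d = c := by simpa using h3
    rcases List.eq_nil_or_concat r with rfl | ⟨v, e, rfl⟩
    · exact Or.inl rfl
    · simp only [List.concat_eq_append, List.reverse_cons, List.reverse_append, List.reverse_nil,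
        List.nil_append, List.cons_append, List.cons.injEq] at h2
      obtain ⟨rfl, h2⟩ := h2
      exact Or.inr ⟨v, List.append_cancel_right h2, by simp, h1⟩

lemma core (w : List α) (ih : ∀ v : List α, v.length < w.length → (pals v).card + 2 ≤ g v.length) :
    ∃ s t, s + t = w.toFinset.card ∧ s + 2 * t ≤ w.length ∧
      (pals w).card + g (w.length - 2 * t) ≤ s + g w.length := by
  set R := w.toFinset.filter fun c => 2 ≤ w.count c with hR
  set S := w.toFinset.filter fun c => ¬ 2 ≤ w.count c with hS
  have hlen : S.card + 2 * R.card ≤ w.length := by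
    rw [← List.sum_toFinset_count_eq_length w, ← sum_filter_add_sum_filter_not w.toFinset
      (fun c => 2 ≤ w.count c), add_comm]
    apply add_le_add
    · rw [mul_comm, ← smul_eq_mul]
      exact card_nsmul_le_sum _ _ _ fun c hc => (mem_filter.1 hc).2
    · rw [← mul_one S.card, ← smul_eq_mul]
      exact card_nsmul_le_sum _ _ _ fun c hc =>
        List.count_pos_iff.2 (List.mem_toFinset.1 (mem_filter.1 hc).1)
  refine ⟨S.card, R.card, by rw [add_comm]; exact card_filter_add_card_filter_not _, hlen, ?_⟩
  have h1 : (pals w).card ≤ ∑ c ∈ w.toFinset, ((pals w).filter fun u => u.head? = some c).card := by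
    refine le_trans (card_le_card fun u hu => ?_) card_biUnion_le
    have hu' := hu
    simp only [pals, mem_filter, List.mem_toFinset, List.mem_sublists] at hu'
    cases u with
    | nil => exact absurd rfl hu'.2.1
    | cons d r =>
      exact mem_biUnion.2 ⟨d, List.mem_toFinset.2 (hu'.1.subset List.mem_cons_self),
        mem_filter.2 ⟨hu, rfl⟩⟩
  rw [← sum_filter_add_sum_filter_not w.toFinset (fun c => 2 ≤ w.count c), ← hR, ← hS] at h1
  have h2 : ∑ c ∈ S, ((pals w).filter fun u => u.head? = some c).card ≤ S.card := by
    rw [← mul_one S.card, ← smul_eq_mul]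
    refine sum_le_card_nsmul _ _ _ fun c hc => ?_
    refine le_trans (card_le_card fun u hu => ?_) (card_singleton [c]).le
    rcases shape hu with rfl | ⟨v, -, rfl, h⟩
    · simp
    · have := h.count_le c
      simp at this
      exact absurd (by omega) (mem_filter.1 hc).2
  have h3 : ∀ c ∈ R, (((pals w).filter fun u => u.head? = some c).card : ℝ)
      ≤ g w.length / 4 * ((1 / 2) ^ (w.idxOf c) + (1 / 2) ^ (w.reverse.idxOf c)) := by
    intro c hc
    obtain ⟨hc1, hc2⟩ := mem_filter.1 hc
    obtain ⟨A, y, rfl, hA⟩ := List.eq_append_cons_of_mem (List.mem_toFinset.1 hc1)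
    have hy : c ∈ y.reverse := by
      rw [List.mem_reverse, ← List.count_pos_iff]
      rw [List.count_append, List.count_eq_zero_of_not_mem hA, List.count_cons_self] at hc2
      omega
    obtain ⟨B, I, e, hB⟩ := List.eq_append_cons_of_mem hy
    have e1 : (A ++ c :: y).idxOf c = A.length := by
      rw [List.idxOf_append_of_notMem hA]; simp
    have e2 : (A ++ c :: y).reverse.idxOf c = B.length := by
      rw [List.reverse_append, List.reverse_cons, e, List.append_assoc, List.append_assoc,
        List.idxOf_append_of_notMem hB]; simp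
    have e3 : (A ++ c :: y).length = I.reverse.length + A.length + B.length + 2 := by
      have := congrArg List.length e
      simp at this ⊢; omega
    have e4 := ih I.reverse (by omega)
    have e5 : ((pals (A ++ c :: y)).filter fun u => u.head? = some c).card
        ≤ (pals I.reverse).card + 2 := by
      refine le_trans (card_le_card (t := insert [c] ((insert [] (pals I.reverse)).image
        fun v => c :: (v ++ [c]))) fun u hu => ?_) ?_
      · rcases shape hu with rfl | ⟨v, hv, rfl, h⟩
        · simp
        · refine mem_insert_of_mem (mem_image_of_mem _ ?_)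
          have k1 := (L1 hA h).reverse
          rw [e, List.reverse_append, List.reverse_singleton, List.singleton_append] at k1
          have k2 := (L1 hB k1).reverse
          rw [List.reverse_reverse] at k2
          by_cases h0 : v = []
          · simp [h0]
          · exact mem_insert_of_mem (by simp [pals, k2, h0, hv])
      · exact (card_insert_le _ _).trans (by
          have := card_image_le (s := insert [] (pals I.reverse)) (f := fun v => c :: (v ++ [c]))
          have := card_insert_le [] (pals I.reverse)
          omega)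
    rw [e1, e2, e3]
    exact le_trans (by exact_mod_cast e5.trans e4) (g_mid _ _ _)
  have inj : ∀ l : List α, (∀ c ∈ R, c ∈ l) →
      ∑ c ∈ R, (1 / 2 : ℝ) ^ (l.idxOf c) ≤ 2 - 2 * (1 / 2) ^ R.card := by
    intro l hl
    have hi : Set.InjOn (fun c => l.idxOf c) R := fun a ha b _ h => (List.idxOf_inj (hl a ha)).1 h
    have := geo (R.image fun c => l.idxOf c)
    rwa [sum_image hi, card_image_of_injOn hi] at this
  have h4 := sum_le_sum h3
  rw [← mul_sum, sum_add_distrib] at h4
  have i1 := inj w fun c hc => List.mem_toFinset.1 (mem_filter.1 hc).1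
  have i2 := inj w.reverse fun c hc => List.mem_reverse.2 (List.mem_toFinset.1 (mem_filter.1 hc).1)
  have h5 : (g w.length : ℝ) * (1 / 2) ^ R.card = g (w.length - 2 * R.card) := by
    have := g_add (w.length - 2 * R.card) R.card
    rw [show w.length - 2 * R.card + 2 * R.card = w.length by omega] at this
    rw [this]; push_cast; simp only [one_div, inv_pow]; field_simp
  have h6 := mul_le_mul_of_nonneg_left (add_le_add i1 i2) (by positivity : (0 : ℝ) ≤ g w.length / 4)
  have h7 : ((∑ c ∈ R, ((pals w).filter fun u => u.head? = some c).card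
      + g (w.length - 2 * R.card) : ℕ) : ℝ) ≤ g w.length := by
    push_cast; linarith
  have h8 := Nat.cast_le.1 h7
  omega

lemma bound (w : List α) : (pals w).card + 2 ≤ g w.length := by
  induction h : w.length using Nat.strong_induction_on generalizing w with
  | _ n ih =>
    obtain ⟨s, t, -, h2, h3⟩ := core w fun v hv => ih _ (h ▸ hv) v rfl
    have := g_ge (w.length - 2 * t)
    rw [← h]; omega

lemma main (w : List α) :
    (pals w).card ≤ M w.length ∧ ((pals w).card = M w.length →
      if w.length % 2 = 1 then w.toFinset.card = (w.length + 1) / 2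
      else w.toFinset.card = w.length / 2 ∨ w.toFinset.card = w.length / 2 + 1) := by
  have h0 := M_eq w.length
  refine ⟨by have := bound w; omega, fun h => ?_⟩
  obtain ⟨s, t, h1, h2, h3⟩ := core w fun v _ => bound v
  obtain ⟨u, hu⟩ : ∃ u, u = w.length - 2 * t := ⟨_, rfl⟩
  rw [← hu] at h3
  have h4 := g_ge u
  have h5 : u ≤ 2 := by
    by_contra hc
    obtain ⟨v, rfl⟩ : ∃ v, u = v + 2 := ⟨u - 2, by omega⟩
    have := g_ge v
    rw [g] at h3
    omega
  split_ifs <;> omega

def W : ℕ → List ℕ
  | 0 => []
  | 1 => [1]
  | n + 2 => (n + 2) :: (W n ++ [n + 2])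

lemma W_len (n : ℕ) : (W n).length = n := by
  induction n using Nat.twoStepInduction with
  | zero => rfl
  | one => rfl
  | more n h _ => simp [W, h]

lemma W_mem (n : ℕ) : ∀ x ∈ W n, x ≤ n := by
  induction n using Nat.twoStepInduction with
  | zero => simp [W]
  | one => simp [W]
  | more n h _ =>
    intro x hx
    simp only [W, List.mem_cons, List.mem_append, List.not_mem_nil, or_false] at hx
    rcases hx with rfl | hx | rfl
    · exact le_rfl
    · have := h x hx; omega
    · exact le_rfl

lemma W_card (n : ℕ) : g n ≤ (pals (W n)).card + 2 := by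
  induction n using Nat.twoStepInduction with
  | zero => decide
  | one => decide
  | more n h _ =>
    have h0 : [] ∉ pals (W n) := by simp [pals]
    have h1 : ((insert [] (pals (W n))).image fun v => (n + 2) :: (v ++ [n + 2])).card
        = (pals (W n)).card + 1 := by
      rw [card_image_of_injective _ (fun a b hab => by simpa using hab), card_insert_of_notMem h0]
    have h2 : [n + 2] ∉ (insert [] (pals (W n))).image fun v => (n + 2) :: (v ++ [n + 2]) := by simp
    have h3 : Disjoint (pals (W n))
        (insert [n + 2] ((insert [] (pals (W n))).image fun v => (n + 2) :: (v ++ [n + 2]))) := by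
      rw [disjoint_left]
      intro u hu hu'
      simp only [pals, mem_filter, List.mem_toFinset, List.mem_sublists] at hu
      have : n + 2 ∈ u := by
        rcases mem_insert.1 hu' with rfl | hu'
        · simp
        · obtain ⟨v, -, rfl⟩ := mem_image.1 hu'
          simp
      have := W_mem n _ (hu.1.subset this)
      omega
    have h4 : pals (W n) ∪ insert [n + 2] ((insert [] (pals (W n))).image
        fun v => (n + 2) :: (v ++ [n + 2])) ⊆ pals (W (n + 2)) := by
      intro u hu
      simp only [pals, mem_union, mem_insert, mem_image, mem_filter, List.mem_toFinset,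
        List.mem_sublists, W] at hu ⊢
      rcases hu with hu | rfl | ⟨v, rfl | hv, rfl⟩
      · exact ⟨(hu.1.trans (List.sublist_append_left _ _)).cons _, hu.2⟩
      · simp
      · simp
      · exact ⟨(hv.1.append_right _).cons_cons _, by simp, by simp [hv.2.2]⟩
    have h5 := card_le_card h4
    rw [card_union_of_disjoint h3, card_insert_of_notMem h2, h1] at h5
    rw [g]; omega

theorem result (n : ℕ) : (∃ w : List ℕ, w.length = n ∧ (pals w).card = M n) ∧
    ∀ (α : Type) [DecidableEq α] (w : List α), w.length = n → (pals w).card ≤ M n ∧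
      ((pals w).card = M n → if n % 2 = 1 then w.toFinset.card = (n + 1) / 2
        else w.toFinset.card = n / 2 ∨ w.toFinset.card = n / 2 + 1) := by
  refine ⟨⟨W n, W_len n, ?_⟩, ?_⟩
  · have h1 := bound (W n)
    have h2 := W_card n
    have h3 := M_eq n
    rw [W_len] at h1
    omega
  · rintro α _ w rfl
    exact main w

end Pool.Agent.Results.MP_06621a_co.Full
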